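import Pool.Agent.TH931.LA.Fin

set_option autoImplicit false

/-!
Averages over `k` independent random words of given weights, and what happens when the weights
are changed one after the other.
-/

namespace Pool.Agent.TH707.IQ

open Pool.Agent.TH762.AC Pool.Agent.TH931.LA

variable {n k q : ℕ}

open Classical in
/-- The uniform distribution on the words with `w` ones. -/
noncomputable def mu (w : ℕ) (y : Fin n → Bool) : ℝ :=
  if ones y = w then
    1 / ((Finset.univ.filter (fun y : Fin n → Bool => ones y = w)).card : ℝ) else 0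

/-- The average of `P` over independent words of weights `w i`. -/
noncomputable def EE (w : Fin k → ℕ) (P : (Fin k → Fin n → Bool) → ℝ) : ℝ :=
  ∑ x, (∏ i, mu (w i) (x i)) * P x

open Classical in
/-- Among the `k`-tuples of words, the `i`-th word having `w i` ones, the proportion of those
with the property `P`. -/
noncomputable def prob (w : Fin k → ℕ) (P : (Fin k → Fin n → Bool) → Prop) : ℝ :=
  ((Finset.univ.filter (fun x : Fin k → Fin n → Bool => (∀ i, ones (x i) = w i) ∧ P x)).card : ℝ) /
    ((Finset.univ.filter (fun x : Fin k → Fin n → Bool => ∀ i, ones (x i) = w i)).card : ℝ)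

theorem mu_nonneg (w : ℕ) (y : Fin n → Bool) : 0 ≤ mu w y := by
  classical
  unfold mu
  split_ifs
  · positivity
  · exact le_rfl

theorem card_layer_pos {w : ℕ} (hw : w ≤ n) :
    0 < (Finset.univ.filter (fun y : Fin n → Bool => ones y = w)).card := by
  obtain ⟨x0, hx0⟩ := layer_nonempty (n := n) (t := w) hw
  exact Finset.card_pos.2 ⟨x0, by simp [hx0]⟩

theorem mu_pos_iff {w : ℕ} (y : Fin n → Bool) (h : mu w y ≠ 0) : ones y = w := by
  classical
  unfold mu at h
  by_contra hc
  rw [if_neg hc] at h
  exact h rfl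

theorem frac_eq_sum (f : (Fin n → Bool) → Prop) [DecidablePred f] (w : ℕ) :
    frac f w = ∑ y, mu w y * (if f y then 1 else 0) := by
  classical
  have e1 : ∀ y : Fin n → Bool, mu w y * (if f y then (1 : ℝ) else 0) =
      if ones y = w ∧ f y then
        1 / ((Finset.univ.filter (fun y : Fin n → Bool => ones y = w)).card : ℝ) else 0 := by
    intro y
    unfold mu
    by_cases h1 : ones y = w
    · by_cases h2 : f y
      · rw [if_pos h1, if_pos h2, if_pos ⟨h1, h2⟩, mul_one]
      · have h3 : ¬ (ones y = w ∧ f y) := fun h => h2 h.2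
        rw [if_neg h2, if_neg h3, mul_zero]
    · have h3 : ¬ (ones y = w ∧ f y) := fun h => h1 h.1
      rw [if_neg h1, if_neg h3, zero_mul]
  rw [Finset.sum_congr rfl (fun y _ => e1 y), ← Finset.sum_filter, Finset.sum_const, nsmul_eq_mul,
    mul_one_div]
  unfold frac
  congr!

theorem sum_mu {w : ℕ} (hw : w ≤ n) : ∑ y : Fin n → Bool, mu w y = 1 := by
  classical
  have h0 := card_layer_pos hw
  unfold mu
  rw [← Finset.sum_filter, Finset.sum_const, nsmul_eq_mul, mul_one_div, div_self]
  have h5 : ((Finset.univ.filter (fun x : Fin n → Bool => ones x = w)).card : ℝ) ≠ 0 := by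
    exact_mod_cast h0.ne'
  convert h5

theorem sum_prod_mu (w : Fin k → ℕ) (hw : ∀ i, w i ≤ n) :
    ∑ x : Fin k → Fin n → Bool, ∏ i, mu (w i) (x i) = 1 := by
  classical
  have h := Finset.prod_univ_sum (fun _ : Fin k => (Finset.univ : Finset (Fin n → Bool)))
    (fun i y => mu (w i) y)
  rw [Fintype.piFinset_univ] at h
  rw [← h]
  exact Finset.prod_eq_one fun i _ => sum_mu (hw i)

theorem prob_eq (w : Fin k → ℕ) (P : (Fin k → Fin n → Bool) → Prop) [DecidablePred P] :
    prob w P = EE w (fun x => if P x then 1 else 0) := by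
  classical
  have hcard : (Finset.univ.filter (fun x : Fin k → Fin n → Bool => ∀ i, ones (x i) = w i)).card =
      ∏ i, (Finset.univ.filter (fun y : Fin n → Bool => ones y = w i)).card := by
    rw [← Fintype.card_piFinset]
    congr 1
    ext x
    simp [Fintype.mem_piFinset]
  have hm : ∀ x : Fin k → Fin n → Bool, (∏ i, mu (w i) (x i)) =
      if ∀ i, ones (x i) = w i then 1 / ((Finset.univ.filter
        (fun x : Fin k → Fin n → Bool => ∀ i, ones (x i) = w i)).card : ℝ) else 0 := by
    intro x
    by_cases h : ∀ i, ones (x i) = w i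
    · rw [if_pos h, hcard, Nat.cast_prod, one_div, ← Finset.prod_inv_distrib]
      refine Finset.prod_congr rfl fun i _ => ?_
      unfold mu
      rw [if_pos (h i), one_div]
    · rw [if_neg h]
      push Not at h
      obtain ⟨i, hi⟩ := h
      refine Finset.prod_eq_zero (Finset.mem_univ i) ?_
      unfold mu
      rw [if_neg hi]
  unfold EE prob
  have e1 : ∀ x : Fin k → Fin n → Bool, (∏ i, mu (w i) (x i)) * (if P x then (1 : ℝ) else 0) =
      if (∀ i, ones (x i) = w i) ∧ P x then 1 / ((Finset.univ.filter
        (fun x : Fin k → Fin n → Bool => ∀ i, ones (x i) = w i)).card : ℝ) else 0 := by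
    intro x
    rw [hm x]
    by_cases h1 : ∀ i, ones (x i) = w i
    · by_cases h2 : P x
      · rw [if_pos h1, if_pos h2, if_pos ⟨h1, h2⟩, mul_one]
      · have h3 : ¬ ((∀ i, ones (x i) = w i) ∧ P x) := fun h => h2 h.2
        rw [if_neg h2, if_neg h3, mul_zero]
    · have h3 : ¬ ((∀ i, ones (x i) = w i) ∧ P x) := fun h => h1 h.1
      rw [if_neg h1, if_neg h3, zero_mul]
  rw [Finset.sum_congr rfl (fun x _ => e1 x), ← Finset.sum_filter, Finset.sum_const, nsmul_eq_mul,
    mul_one_div]
  congr!

theorem EE_split {m : ℕ} (i : Fin (m + 1)) (w : Fin (m + 1) → ℕ)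
    (P : (Fin (m + 1) → Fin n → Bool) → ℝ) :
    EE w P = ∑ z : Fin m → Fin n → Bool, (∏ j, mu (w (i.succAbove j)) (z j)) *
      ∑ y, mu (w i) y * P (i.insertNth y z) := by
  unfold EE
  rw [← (Fin.insertNthEquiv (fun _ : Fin (m + 1) => Fin n → Bool) i).sum_comp,
    Fintype.sum_prod_type, Finset.sum_comm]
  refine Finset.sum_congr rfl fun z _ => ?_
  rw [Finset.mul_sum]
  refine Finset.sum_congr rfl fun y _ => ?_
  have e : (Fin.insertNthEquiv (fun _ : Fin (m + 1) => Fin n → Bool) i) (y, z) =
      i.insertNth y z := rfl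
  rw [e, Fin.prod_univ_succAbove _ i]
  simp only [Fin.insertNth_apply_same, Fin.insertNth_apply_succAbove]
  ring

/-- Changing the weight of one word. -/
theorem EE_step {m : ℕ} (i : Fin (m + 1)) (w w' : Fin (m + 1) → ℕ)
    (P : (Fin (m + 1) → Fin n → Bool) → ℝ) (hww : ∀ j, w (i.succAbove j) = w' (i.succAbove j))
    (hw : ∀ j, w j ≤ n) {η : ℝ}
    (h : ∀ z : Fin m → Fin n → Bool, |∑ y, mu (w i) y * P (i.insertNth y z) -
      ∑ y, mu (w' i) y * P (i.insertNth y z)| ≤ η) :
    |EE w P - EE w' P| ≤ η := by
  rw [EE_split i w, EE_split i w']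
  have e1 : ∀ z : Fin m → Fin n → Bool, (∏ j, mu (w' (i.succAbove j)) (z j)) =
      ∏ j, mu (w (i.succAbove j)) (z j) := by
    intro z
    refine Finset.prod_congr rfl fun j _ => ?_
    rw [hww j]
  rw [Finset.sum_congr rfl (fun z _ => by rw [e1 z] : ∀ z ∈ Finset.univ,
    (∏ j, mu (w' (i.succAbove j)) (z j)) * ∑ y, mu (w' i) y * P (i.insertNth y z) =
    (∏ j, mu (w (i.succAbove j)) (z j)) * ∑ y, mu (w' i) y * P (i.insertNth y z)),
    ← Finset.sum_sub_distrib]
  refine (Finset.abs_sum_le_sum_abs _ _).trans ?_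
  have e2 : ∑ z : Fin m → Fin n → Bool, (∏ j, mu (w (i.succAbove j)) (z j)) * η = η := by
    rw [← Finset.sum_mul, sum_prod_mu (fun j => w (i.succAbove j)) (fun j => hw _), one_mul]
  rw [← e2]
  refine Finset.sum_le_sum fun z _ => ?_
  rw [← mul_sub, abs_mul]
  have hp : 0 ≤ ∏ j, mu (w (i.succAbove j)) (z j) := Finset.prod_nonneg fun j _ => mu_nonneg _ _
  rw [abs_of_nonneg hp]
  exact mul_le_mul_of_nonneg_left (h z) hp

/-- Changing the weights of all words, one after the other. -/
theorem EE_hybrid (s t : ℕ) (hs : s ≤ n) (ht : t ≤ n) (P : (Fin k → Fin n → Bool) → ℝ) {η : ℝ}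
    (hη : 0 ≤ η)
    (h : ∀ (i : Fin k) (x : Fin k → Fin n → Bool),
      |∑ y, mu t y * P (Function.update x i y) - ∑ y, mu s y * P (Function.update x i y)| ≤ η)
    (w w' : Fin k → ℕ) (hw : ∀ i, w i = s ∨ w i = t) (hw' : ∀ i, w' i = s ∨ w' i = t) :
    |EE w P - EE w' P| ≤ k * η := by
  have hle : ∀ v : Fin k → ℕ, (∀ i, v i = s ∨ v i = t) → ∀ i, v i ≤ n := by
    intro v hv i
    rcases hv i with h1 | h1 <;> omega
  have key : ∀ j : ℕ, j ≤ k →
      |EE (fun i : Fin k => if i.val < j then w i else w' i) P - EE w' P| ≤ j * η := by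
    intro j
    induction j with
    | zero =>
      intro _
      simp
    | succ j ih =>
      intro hj
      have h1 := ih (by omega)
      obtain ⟨m, rfl⟩ : ∃ m, k = m + 1 := ⟨k - 1, by omega⟩
      have h2 : |EE (fun i : Fin (m + 1) => if i.val < j + 1 then w i else w' i) P -
          EE (fun i : Fin (m + 1) => if i.val < j then w i else w' i) P| ≤ η := by
        refine EE_step (⟨j, by omega⟩ : Fin (m + 1)) _ _ P ?_ ?_ ?_
        · intro l
          have hne : ((⟨j, by omega⟩ : Fin (m + 1)).succAbove l).val ≠ j := by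
            intro hc
            exact Fin.succAbove_ne (⟨j, by omega⟩ : Fin (m + 1)) l (Fin.ext hc)
          by_cases hlt : ((⟨j, by omega⟩ : Fin (m + 1)).succAbove l).val < j
          · rw [if_pos (by omega), if_pos hlt]
          · rw [if_neg (by omega), if_neg hlt]
        · intro l
          split_ifs
          · exact hle w hw l
          · exact hle w' hw' l
        · intro z
          have e1 : (if ((⟨j, by omega⟩ : Fin (m + 1)) : Fin (m + 1)).val < j + 1 then
              w ⟨j, by omega⟩ else w' ⟨j, by omega⟩) = w ⟨j, by omega⟩ :=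
            if_pos (Nat.lt_succ_self j)
          have e2 : (if ((⟨j, by omega⟩ : Fin (m + 1)) : Fin (m + 1)).val < j then
              w ⟨j, by omega⟩ else w' ⟨j, by omega⟩) = w' ⟨j, by omega⟩ :=
            if_neg (Nat.lt_irrefl j)
          rw [e1, e2]
          have h3 := h ⟨j, by omega⟩
            ((⟨j, by omega⟩ : Fin (m + 1)).insertNth (fun _ => false) z)
          simp only [Fin.update_insertNth] at h3
          rcases hw ⟨j, by omega⟩ with a1 | a1 <;> rcases hw' ⟨j, by omega⟩ with a2 | a2 <;>
            rw [a1, a2]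
          · simpa using hη
          · rw [abs_sub_comm]; exact h3
          · exact h3
          · simpa using hη
      have h3 : EE (fun i : Fin (m + 1) => if i.val < j + 1 then w i else w' i) P - EE w' P =
          (EE (fun i : Fin (m + 1) => if i.val < j + 1 then w i else w' i) P -
            EE (fun i : Fin (m + 1) => if i.val < j then w i else w' i) P) +
          (EE (fun i : Fin (m + 1) => if i.val < j then w i else w' i) P - EE w' P) := by ring
      rw [h3]
      refine (abs_add_le _ _).trans ?_
      push_cast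
      linarith
  have h4 := key k le_rfl
  have e : (fun i : Fin k => if i.val < k then w i else w' i) = w := by
    funext i
    rw [if_pos i.2]
  rwa [e] at h4

end Pool.Agent.TH707.IQ
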