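import Pool.Agent.TH707.IQ.Avg

set_option autoImplicit false

/-!
Finite questions about the majorities of `k` words are as hard as majority.
-/

namespace Pool.Agent.TH707.IQ

open Pool.Agent.TH762.AC Pool.Agent.TH931.LA

variable {G : ℕ → ℕ → Prop} {n k q : ℕ}

/-- The majority of a word (a tie counts as one). -/
def maj {n : ℕ} (x : Fin n → Bool) : Bool := decide (n ≤ 2 * ones x)

/-- `M` maps `k` words of `n` bits to one of `q` answers and is computed by circuits with at most
`S` gates and depth at most `D`: one circuit, with `k * n` inputs, for each answer. -/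
def CircM (G : ℕ → ℕ → Prop) (S D : ℕ) (M : (Fin k → Fin n → Bool) → Fin q) : Prop :=
  ∀ o, Circ G (k * n) S D (fun z => M (fun i j => z (finProdFinEquiv (i, j))) = o)

/-- A sequence of questions: `R n β o` says that `o` is a right answer if the majorities of the
`k n` words `x 0, x 1, ...` of length `n` are `β 0, β 1, ...`.  Circuits of polynomial size and
constant depth answer all these questions. -/
def Answers (G : ℕ → ℕ → Prop) (k q : ℕ → ℕ) (R : ∀ n, (Fin (k n) → Bool) → Fin (q n) → Prop) :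
    Prop :=
  ∃ a D : ℕ, ∀ n : ℕ, 1 ≤ n → ∃ M : (Fin (k n) → Fin n → Bool) → Fin (q n),
    CircM G (a * n ^ a + a) D M ∧ ∀ x, R n (fun i => maj (x i)) (M x)

/-- Circuits of polynomial size and constant depth answer the questions with probability at
least `ρ n` if the words are chosen at random, with arbitrary prescribed numbers `w i` of
ones. -/
def AnswersOften (G : ℕ → ℕ → Prop) (k q : ℕ → ℕ)
    (R : ∀ n, (Fin (k n) → Bool) → Fin (q n) → Prop) (ρ : ℕ → ℝ) : Prop :=
  ∃ a D : ℕ, ∀ n : ℕ, 1 ≤ n → ∃ M : (Fin (k n) → Fin n → Bool) → Fin (q n),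
    CircM G (a * n ^ a + a) D M ∧ ∀ w : Fin (k n) → ℕ, (∀ i, w i ≤ n) →
      ρ n ≤ prob w (fun x => R n (fun i => maj (x i)) (M x))

open Classical in
/-- An oblivious random answer, chosen according to the distribution `π` without looking at the
words, is right with probability at most `ρ` for some majorities `β`. -/
def Oblivious (k q : ℕ) (R : (Fin k → Bool) → Fin q → Prop) (ρ : ℝ) : Prop :=
  ∀ π : Fin q → ℝ, (∀ o, 0 ≤ π o) → ∑ o, π o = 1 →
    ∃ β, ∑ o ∈ Finset.univ.filter (fun o => R β o), π o ≤ ρ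

/-- Fixing all words but one. -/
theorem restrict {S D : ℕ} {M : (Fin k → Fin n → Bool) → Fin q} (hM : CircM G S D M) (o : Fin q)
    (i : Fin k) (x : Fin k → Fin n → Bool) :
    CC G n (S + k * n * 1) (1 + D) (fun y => M (Function.update x i y) = o) := by
  have h := (circ_iff _ _ _ _ _).1 (hM o)
  refine h.comp (s' := 1) (D' := 1) (fun j y =>
    (if (finProdFinEquiv.symm j).1 = i then y (finProdFinEquiv.symm j).2
      else x (finProdFinEquiv.symm j).1 (finProdFinEquiv.symm j).2) = true) ?_ _ ?_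
  · intro j
    by_cases hj : (finProdFinEquiv.symm j).1 = i
    · refine (CC.bit (finProdFinEquiv.symm j).2).congr fun y => ?_
      rw [if_pos hj]
    · refine (CC.const (x (finProdFinEquiv.symm j).1 (finProdFinEquiv.symm j).2 = true)).congr
        fun y => ?_
      rw [if_neg hj]
  · intro y z hz
    have : (Function.update x i y) = fun i' j => z (finProdFinEquiv (i', j)) := by
      funext i' j
      have h2 := hz (finProdFinEquiv (i', j))
      simp only [Equiv.symm_apply_apply] at h2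
      rw [Bool.eq_iff_iff, h2]
      by_cases hi : i' = i
      · subst hi
        simp
      · rw [Function.update_of_ne hi, if_neg hi]
    rw [this]

theorem frac_other {w v : ℕ} (h : v ≠ w) : frac (fun x : Fin n → Bool => ones x = w) v = 0 := by
  classical
  unfold frac
  rw [div_eq_zero_iff]
  left
  have : (Finset.univ.filter (fun x : Fin n → Bool => ones x = v ∧ ones x = w)) = ∅ := by
    ext x
    simp only [Finset.mem_filter, Finset.mem_univ, true_and, Finset.notMem_empty, iff_false,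
      not_and]
    intro h1 h2
    exact h (h1.symm.trans h2)
  have h5 : ((Finset.univ.filter
      (fun x : Fin n → Bool => ones x = v ∧ ones x = w)).card : ℝ) = 0 := by
    rw [this]; simp
  convert h5

theorem frac_self {w : ℕ} (hw : w ≤ n) : frac (fun x : Fin n → Bool => ones x = w) w = 1 := by
  classical
  rw [frac_eq_sum]
  refine (Finset.sum_congr rfl fun y _ => ?_).trans (sum_mu hw)
  by_cases h : ones y = w
  · simp [h]
  · have : mu w y = 0 := by
      by_contra hc
      exact h (mu_pos_iff y hc)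
    simp [this]

theorem tells_of_often {k q : ℕ → ℕ} {R : ∀ n, (Fin (k n) → Bool) → Fin (q n) → Prop}
    {ρ ρ' : ℕ → ℝ} {e : ℕ} (hk : PolyB k)
    (hgap : ∀ n, 2 ≤ n → (q n : ℝ) * k n < (ρ n - ρ' n) * ((Nat.log 2 n : ℝ) + 1) ^ e)
    (hR : ∀ n, 2 ≤ n → Oblivious (k n) (q n) (R n) (ρ' n)) (h : AnswersOften G k q R ρ) :
    TellsLayers G 2 0 e := by
  classical
  obtain ⟨a, D, h⟩ := h
  obtain ⟨a', ha'⟩ : PolyB (fun n => 1 + ((a * n ^ a + a) + k n * n * 1)) :=
    (PolyB.const 1).add ((((PolyB.const a).mul (PolyB.id.pow a)).add (PolyB.const a)).add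
      ((hk.mul PolyB.id).mul (PolyB.const 1)))
  refine ⟨a', D + 1, fun n hn s t hlt hst _ => ?_⟩
  rcases Nat.lt_or_ge n 2 with h2 | h2
  · have hn1 : n = 1 := by omega
    subst hn1
    refine ⟨fun x => ones x = t, (circ_iff _ _ _ _ _).2 ?_, ?_⟩
    · refine ((CC.bit (0 : Fin 1)).mono (le_trans (by beta_reduce; omega) (ha' 1))
        (by omega)).congr fun x => ?_
      have ht : t = 1 := by omega
      rw [ht]
      unfold ones
      rw [Finset.card_filter, Fin.sum_univ_one]
      by_cases hx : x 0 = true <;> simp [hx]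
    · rw [frac_self (by omega), frac_other (by omega)]
      simp
  by_contra hno
  push Not at hno
  set η : ℝ := 1 / ((Nat.log 2 n : ℝ) + 1) ^ e with hηdef
  have hL : (2 : ℝ) ≤ (Nat.log 2 n : ℝ) + 1 := by
    have h3 : 1 ≤ Nat.log 2 n := Nat.log_pos (by norm_num) h2
    have : (1 : ℝ) ≤ (Nat.log 2 n : ℝ) := by exact_mod_cast h3
    linarith
  have hη0 : 0 ≤ η := by positivity
  have hηδ : (q n : ℝ) * k n * η < ρ n - ρ' n := by
    rw [hηdef, mul_one_div, div_lt_iff₀ (by positivity)]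
    exact hgap n h2
  obtain ⟨M, hM1, hM2⟩ := h n hn
  have hsn : s ≤ n := by omega
  have htn : t ≤ n := by omega
  have hhyb : ∀ o : Fin (q n), ∀ w w' : Fin (k n) → ℕ, (∀ i, w i = s ∨ w i = t) →
      (∀ i, w' i = s ∨ w' i = t) →
      |EE w (fun x : Fin (k n) → Fin n → Bool => if M x = o then (1 : ℝ) else 0) -
        EE w' (fun x => if M x = o then 1 else 0)| ≤ k n * η := by
    intro o
    refine EE_hybrid s t hsn htn _ hη0 ?_
    intro i x
    have h3 := hno (fun y => M (Function.update x i y) = o)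
      ((circ_iff _ _ _ _ _).2 ((restrict hM1 o i x).mono
        (le_trans (by beta_reduce; omega) (ha' n)) (by omega)))
    rw [frac_eq_sum, frac_eq_sum] at h3
    exact h3.le
  set π : Fin (q n) → ℝ := fun o =>
    EE (fun _ : Fin (k n) => s) (fun x : Fin (k n) → Fin n → Bool => if M x = o then 1 else 0)
    with hπ
  have hπ0 : ∀ o, 0 ≤ π o := by
    intro o
    refine Finset.sum_nonneg fun x _ => mul_nonneg
      (Finset.prod_nonneg fun i _ => mu_nonneg _ _) ?_
    show (0 : ℝ) ≤ if M x = o then 1 else 0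
    split_ifs <;> norm_num
  have hπ1 : ∑ o, π o = 1 := by
    show ∑ o, ∑ x : Fin (k n) → Fin n → Bool,
      (∏ i, mu s (x i)) * (if M x = o then (1 : ℝ) else 0) = 1
    rw [Finset.sum_comm]
    refine (Finset.sum_congr rfl fun x _ => ?_).trans
      (sum_prod_mu (n := n) (fun _ : Fin (k n) => s) (fun _ => hsn))
    rw [← Finset.mul_sum, Finset.sum_ite_eq, if_pos (Finset.mem_univ _), mul_one]
  obtain ⟨β, hβ⟩ := hR n h2 π hπ0 hπ1
  set w : Fin (k n) → ℕ := fun i => if β i = true then t else s with hw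
  have hwst : ∀ i, w i = s ∨ w i = t := by
    intro i
    by_cases hb : β i = true
    · right; simp [hw, hb]
    · left; simp [hw, hb]
  have hwn : ∀ i, w i ≤ n := by
    intro i
    rcases hwst i with h1 | h1 <;> omega
  have hmaj : ∀ i (y : Fin n → Bool), ones y = w i → maj y = β i := by
    intro i y hy
    unfold maj
    rw [hy]
    by_cases hb : β i = true
    · have : w i = t := by simp [hw, hb]
      rw [this, hb, decide_eq_true_iff]
      omega
    · have h1 : w i = s := by simp [hw, hb]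
      have h3 : β i = false := by simpa using hb
      rw [h1, h3, decide_eq_false_iff_not]
      omega
  have h5 := hM2 w hwn
  rw [prob_eq] at h5
  have h6 : EE w (fun x : Fin (k n) → Fin n → Bool =>
      if R n (fun i => maj (x i)) (M x) then (1 : ℝ) else 0) =
      ∑ o ∈ Finset.univ.filter (fun o => R n β o),
        EE w (fun x : Fin (k n) → Fin n → Bool => if M x = o then (1 : ℝ) else 0) := by
    unfold EE
    rw [Finset.sum_comm]
    refine Finset.sum_congr rfl fun x _ => ?_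
    rw [← Finset.mul_sum]
    by_cases hall : ∀ i, ones (x i) = w i
    · have e1 : (fun i => maj (x i)) = β := funext fun i => hmaj i _ (hall i)
      have hRx : R n (fun i => maj (x i)) (M x) ↔ R n β (M x) := by rw [e1]
      beta_reduce
      congr 1
      rw [Finset.sum_ite_eq]
      by_cases hRb : R n β (M x)
      · rw [if_pos (hRx.2 hRb), if_pos (Finset.mem_filter.2 ⟨Finset.mem_univ _, hRb⟩)]
      · rw [if_neg (fun h => hRb (hRx.1 h)), if_neg (fun h => hRb (Finset.mem_filter.1 h).2)]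
    · push Not at hall
      obtain ⟨i, hi⟩ := hall
      have e0 : ∏ i, mu (w i) (x i) = 0 := by
        refine Finset.prod_eq_zero (Finset.mem_univ i) ?_
        by_contra hc
        exact hi (mu_pos_iff _ hc)
      rw [e0, zero_mul, zero_mul]
  rw [h6] at h5
  have h7 : ∑ o ∈ Finset.univ.filter (fun o => R n β o),
      EE w (fun x : Fin (k n) → Fin n → Bool => if M x = o then (1 : ℝ) else 0) ≤
      ∑ o ∈ Finset.univ.filter (fun o => R n β o), (π o + k n * η) := by
    refine Finset.sum_le_sum fun o _ => ?_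
    have := (abs_le.1 (hhyb o w (fun _ => s) hwst (fun _ => Or.inl rfl))).2
    show _ ≤ EE (fun _ : Fin (k n) => s) _ + k n * η
    linarith
  rw [Finset.sum_add_distrib, Finset.sum_const, nsmul_eq_mul] at h7
  have h8 : ((Finset.univ.filter (fun o => R n β o)).card : ℝ) * (k n * η) ≤ q n * (k n * η) := by
    refine mul_le_mul_of_nonneg_right ?_ (by positivity)
    have := Finset.card_le_univ (Finset.univ.filter (fun o => R n β o))
    rw [Fintype.card_fin] at this
    exact_mod_cast this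
  have h9 : ∑ o ∈ Finset.univ.filter (fun o => R n β o), π o ≤ ρ' n := hβ
  have h10 : (q n : ℝ) * (k n * η) < ρ n - ρ' n := by rw [← mul_assoc]; exact hηδ
  linarith

theorem often_of_answers {k q : ℕ → ℕ} {R : ∀ n, (Fin (k n) → Bool) → Fin (q n) → Prop}
    {ρ : ℕ → ℝ} (hρ : ∀ n, ρ n ≤ 1) (h : Answers G k q R) : AnswersOften G k q R ρ := by
  classical
  obtain ⟨a, D, h⟩ := h
  refine ⟨a, D, fun n hn => ?_⟩
  obtain ⟨M, hM1, hM2⟩ := h n hn
  refine ⟨M, hM1, fun w hw => ?_⟩
  have : prob w (fun x => R n (fun i => maj (x i)) (M x)) = 1 := by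
    rw [prob_eq]
    refine (Finset.sum_congr rfl fun x _ => ?_).trans (sum_prod_mu w hw)
    beta_reduce
    rw [if_pos (hM2 x), mul_one]
  rw [this]
  exact hρ n

theorem oblivious_of_nontrivial {k q : ℕ} {R : (Fin k → Bool) → Fin q → Prop} (hq : 0 < q)
    (hR : ∀ o, ∃ β, ¬ R β o) : Oblivious k q R (1 - 1 / q) := by
  classical
  intro π h0 h1
  have hq' : (0 : ℝ) < q := by exact_mod_cast hq
  obtain ⟨o, ho⟩ : ∃ o, 1 / (q : ℝ) ≤ π o := by
    by_contra hc
    push Not at hc
    have : Nonempty (Fin q) := ⟨⟨0, hq⟩⟩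
    have h2 : ∑ o, π o < ∑ _o : Fin q, 1 / (q : ℝ) :=
      Finset.sum_lt_sum_of_nonempty Finset.univ_nonempty fun o _ => hc o
    rw [Finset.sum_const, Finset.card_univ, Fintype.card_fin, nsmul_eq_mul,
      mul_one_div_cancel hq'.ne', h1] at h2
    exact lt_irrefl _ h2
  obtain ⟨β, hβ⟩ := hR o
  refine ⟨β, ?_⟩
  have h3 : Finset.univ.filter (fun o => R β o) ⊆ Finset.univ.erase o := by
    intro o' ho'
    rw [Finset.mem_filter] at ho'
    rw [Finset.mem_erase]
    refine ⟨?_, Finset.mem_univ _⟩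
    rintro rfl
    exact hβ ho'.2
  have h4 := Finset.sum_le_sum_of_subset_of_nonneg h3 (fun o' _ _ => h0 o')
  have h5 := Finset.add_sum_erase Finset.univ π (Finset.mem_univ o)
  rw [h1] at h5
  linarith

theorem answers_of_sub {k q : ℕ → ℕ} {R : ∀ n, (Fin (k n) → Bool) → Fin (q n) → Prop}
    (hk : PolyB k) (hk2 : PolyB (fun n => 2 ^ k n)) (hR : ∀ n β, ∃ o, R n β o)
    (h : TC0 ⊆ {L | Decides G L}) : Answers G k q R := by
  classical
  obtain ⟨a0, D0, h3⟩ := simul_of_majL ((decides_iff _ _).1 (h majL_tc0))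
  choose ch hch using hR
  obtain ⟨a, ha⟩ : PolyB (fun n => 1 + 2 ^ k n *
      (1 + (k n + 1) * (1 + ((a0 * n ^ a0 + a0) + n * 1)))) :=
    (PolyB.const 1).add (hk2.mul ((PolyB.const 1).add ((hk.add (PolyB.const 1)).mul
      ((PolyB.const 1).add ((((PolyB.const a0).mul (PolyB.id.pow a0)).add (PolyB.const a0)).add
        (PolyB.id.mul (PolyB.const 1)))))))
  refine ⟨a, (1 + D0) + 1 + 1 + 1, fun n hn =>
    ⟨fun x => ch n (fun i => maj (x i)), fun o => ?_, fun x => hch n _⟩⟩
  rw [circ_iff]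
  -- the majority of block `i`
  have hblk : ∀ i : Fin (k n), CC G (k n * n) ((a0 * n ^ a0 + a0) + n * 1) (1 + D0)
      (fun z => maj (fun j : Fin n => z (finProdFinEquiv (i, j))) = true) := by
    intro i
    refine (h3 n hn).comp (n := k n * n) (s' := 1) (D' := 1)
      (fun j z => z (finProdFinEquiv (i, j)) = true) (fun j => CC.bit _) _ ?_
    intro x y hy
    have e : (fun j : Fin n => x (finProdFinEquiv (i, j))) = y := by
      funext j
      rw [Bool.eq_iff_iff]
      exact (hy j).symm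
    rw [e]
    unfold maj majG ones
    rw [decide_eq_true_iff]
  have hlit : ∀ (i : Fin (k n)) (b : Bool), CC G (k n * n)
      (1 + ((a0 * n ^ a0 + a0) + n * 1)) ((1 + D0) + 1)
      (fun z => maj (fun j : Fin n => z (finProdFinEquiv (i, j))) = b) := by
    intro i b
    cases b
    · refine (hblk i).not.congr fun z => ?_
      simp
    · exact (hblk i).mono (by omega) (by omega)
  have hpat : ∀ β : Fin (k n) → Bool, CC G (k n * n)
      (1 + (k n + 1) * (1 + ((a0 * n ^ a0 + a0) + n * 1))) ((1 + D0) + 1 + 1)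
      (fun z => ch n β = o ∧ ∀ i, maj (fun j : Fin n => z (finProdFinEquiv (i, j))) = β i) := by
    intro β
    have h4 := CC.all (G := G) (n := k n * n) (s := 1 + ((a0 * n ^ a0 + a0) + n * 1))
      (D := (1 + D0) + 1) (κ := Option (Fin (k n)))
      (fun i z => match i with
        | none => ch n β = o
        | some i => maj (fun j : Fin n => z (finProdFinEquiv (i, j))) = β i) (by
        intro i
        rcases i with _ | i
        · exact (CC.const (ch n β = o)).mono (by omega) (by omega)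
        · exact hlit i (β i))
    refine (h4.mono (by simp) le_rfl).congr fun z => ?_
    constructor
    · rintro ⟨h5, h6⟩ i
      rcases i with _ | i
      · exact h5
      · exact h6 i
    · intro h5
      exact ⟨h5 none, fun i => h5 (some i)⟩
  have h7 := CC.ex (G := G) (fun (β : Fin (k n) → Bool) z =>
    ch n β = o ∧ ∀ i, maj (fun j : Fin n => z (finProdFinEquiv (i, j))) = β i) hpat
  have hcard : Fintype.card (Fin (k n) → Bool) = 2 ^ k n := by simp
  rw [hcard] at h7
  refine (h7.mono (ha n) (by omega)).congr fun z => ?_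
  constructor
  · intro h8
    exact ⟨fun i => maj (fun j : Fin n => z (finProdFinEquiv (i, j))), h8, fun i => rfl⟩
  · rintro ⟨β, h8, h9⟩
    have : (fun i => maj (fun j : Fin n => z (finProdFinEquiv (i, j)))) = β := funext h9
    show ch n (fun i => maj (fun j : Fin n => z (finProdFinEquiv (i, j)))) = o
    rw [this]
    exact h8

theorem polyB_log : PolyB (fun n => Nat.log 2 n + 1) :=
  (PolyB.id.add (PolyB.const 1)).mono fun n => Nat.add_le_add_right (Nat.log_le_self 2 n) 1

theorem polyB_two_log : PolyB (fun n => 2 ^ (Nat.log 2 n + 1)) := by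
  refine ((PolyB.const 2).mul (PolyB.id.add (PolyB.const 1))).mono fun n => ?_
  rw [pow_succ, mul_comm]
  refine Nat.mul_le_mul_left _ ?_
  rcases Nat.eq_zero_or_pos n with h | h
  · subst h; simp
  · exact (Nat.pow_log_le_self 2 h.ne').trans (Nat.le_succ n)

theorem gap_bound {c q k n : ℕ} {δ : ℝ} (hc : 1 ≤ c) (hn : 2 ≤ n)
    (hk : k ≤ c * (Nat.log 2 n + 1)) (hq : q ≤ c * (Nat.log 2 n + 1) ^ c)
    (hδ : 1 / ((c : ℝ) * ((Nat.log 2 n : ℝ) + 1) ^ c) ≤ δ) :
    (q : ℝ) * k < δ * ((Nat.log 2 n : ℝ) + 1) ^ (2 * c + 1 + c ^ 3) := by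
  set L : ℝ := (Nat.log 2 n : ℝ) + 1 with hLdef
  have hL : (2 : ℝ) ≤ L := by
    have h3 : 1 ≤ Nat.log 2 n := Nat.log_pos (by norm_num) hn
    have : (1 : ℝ) ≤ (Nat.log 2 n : ℝ) := by exact_mod_cast h3
    linarith
  have hL0 : 0 < L := by linarith
  have hc0 : (0 : ℝ) < c := by exact_mod_cast hc
  have hk' : (k : ℝ) ≤ c * L := by
    have : (k : ℝ) ≤ ((c * (Nat.log 2 n + 1) : ℕ) : ℝ) := by exact_mod_cast hk
    push_cast at this
    exact this
  have hq' : (q : ℝ) ≤ c * L ^ c := by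
    have : (q : ℝ) ≤ ((c * (Nat.log 2 n + 1) ^ c : ℕ) : ℝ) := by exact_mod_cast hq
    push_cast at this
    exact this
  have h1 : (q : ℝ) * k ≤ (c * L ^ c) * (c * L) :=
    mul_le_mul hq' hk' (Nat.cast_nonneg _) (by positivity)
  have h2 : (c : ℝ) ^ 3 < L ^ (c ^ 3) := by
    have h4 : ((c ^ 3 : ℕ) : ℝ) < 2 ^ (c ^ 3) := by exact_mod_cast Nat.lt_two_pow_self
    push_cast at h4
    exact h4.trans_le (pow_le_pow_left₀ (by norm_num) hL _)
  have h3 : 1 / ((c : ℝ) * L ^ c) * L ^ (2 * c + 1 + c ^ 3) ≤ δ * L ^ (2 * c + 1 + c ^ 3) :=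
    mul_le_mul_of_nonneg_right hδ (by positivity)
  have h4 : 1 / ((c : ℝ) * L ^ c) * L ^ (2 * c + 1 + c ^ 3) = L ^ (c + 1) * L ^ (c ^ 3) / c := by
    have : L ^ (2 * c + 1 + c ^ 3) = L ^ c * (L ^ (c + 1) * L ^ (c ^ 3)) := by ring
    rw [this]
    field_simp
  have h5 : (c * L ^ c) * (c * L) < L ^ (c + 1) * L ^ (c ^ 3) / c := by
    rw [lt_div_iff₀ hc0]
    have : c * L ^ c * (c * L) * c = L ^ (c + 1) * (c : ℝ) ^ 3 := by ring
    rw [this]
    exact mul_lt_mul_of_pos_left h2 (by positivity)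
  linarith

section

variable {c : ℕ} {k q : ℕ → ℕ} {R : ∀ n, (Fin (k n) → Bool) → Fin (q n) → Prop} {ρ ρ' : ℕ → ℝ}

theorem polyB_k (hk : ∀ n, k n ≤ c * (Nat.log 2 n + 1)) : PolyB k :=
  ((PolyB.const c).mul polyB_log).mono hk

theorem polyB_two_k (hk : ∀ n, k n ≤ c * (Nat.log 2 n + 1)) : PolyB (fun n => 2 ^ k n) := by
  refine (polyB_two_log.pow c).mono fun n => ?_
  rw [← pow_mul, mul_comm]
  exact Nat.pow_le_pow_right (by norm_num) (hk n)

theorem q_pos (h1 : ∀ n β, ∃ o, R n β o) (n : ℕ) : 0 < q n := by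
  obtain ⟨o, _⟩ := h1 n (fun _ => false)
  exact Nat.lt_of_le_of_lt (Nat.zero_le _) o.2

theorem c_pos (hq : ∀ n, q n ≤ c * (Nat.log 2 n + 1) ^ c) (h1 : ∀ n β, ∃ o, R n β o) :
    1 ≤ c := by
  have h2 := q_pos h1 0
  have h3 := hq 0
  by_contra h
  have : c = 0 := by omega
  subst this
  simp at h3
  omega

/-- It is as hard as majority to be right more often than with an oblivious random answer. -/
theorem tc0_sub_iff_often (G : ℕ → ℕ → Prop) (hk : ∀ n, k n ≤ c * (Nat.log 2 n + 1))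
    (hq : ∀ n, q n ≤ c * (Nat.log 2 n + 1) ^ c) (h1 : ∀ n β, ∃ o, R n β o)
    (h2 : ∀ n, 2 ≤ n → Oblivious (k n) (q n) (R n) (ρ' n))
    (h3 : ∀ n, 2 ≤ n → ρ' n + 1 / ((c : ℝ) * ((Nat.log 2 n : ℝ) + 1) ^ c) ≤ ρ n)
    (h4 : ∀ n, ρ n ≤ 1) :
    TC0 ⊆ {L | Decides G L} ↔ AnswersOften G k q R ρ := by
  constructor
  · intro h
    exact often_of_answers h4 (answers_of_sub (polyB_k hk) (polyB_two_k hk) h1 h)
  · intro h
    have hc := c_pos hq h1
    exact (tc0_sub_iff_tells G 2 0 _ le_rfl).2 (tells_of_often (e := 2 * c + 1 + c ^ 3)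
      (polyB_k hk) (fun n hn => gap_bound hc hn (hk n) (hq n) (by have := h3 n hn; linarith)) h2 h)

/-- Finite questions about majorities which no single answer settles are as hard as majority. -/
theorem tc0_sub_iff_answers (G : ℕ → ℕ → Prop) (hk : ∀ n, k n ≤ c * (Nat.log 2 n + 1))
    (hq : ∀ n, q n ≤ c * (Nat.log 2 n + 1) ^ c) (h1 : ∀ n β, ∃ o, R n β o)
    (h2 : ∀ n, 2 ≤ n → ∀ o, ∃ β, ¬ R n β o) :
    TC0 ⊆ {L | Decides G L} ↔ Answers G k q R := by
  constructor
  · exact answers_of_sub (polyB_k hk) (polyB_two_k hk) h1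
  · intro h
    have hc := c_pos hq h1
    refine (tc0_sub_iff_often (c := c) (ρ := fun _ => 1) (ρ' := fun n => 1 - 1 / (q n : ℝ))
      G hk hq h1 (fun n hn => oblivious_of_nontrivial (q_pos h1 n) (h2 n hn)) ?_
      (fun _ => le_rfl)).2 (often_of_answers (fun _ => le_rfl) h)
    intro n hn
    have h5 : (0 : ℝ) < q n := by exact_mod_cast q_pos h1 n
    have h6 : (q n : ℝ) ≤ (c : ℝ) * ((Nat.log 2 n : ℝ) + 1) ^ c := by
      have : (q n : ℝ) ≤ ((c * (Nat.log 2 n + 1) ^ c : ℕ) : ℝ) := by exact_mod_cast hq n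
      push_cast at this
      exact this
    have h7 := one_div_le_one_div_of_le h5 h6
    linarith

theorem acc0_eq_iff_answers (hk : ∀ n, k n ≤ c * (Nat.log 2 n + 1))
    (hq : ∀ n, q n ≤ c * (Nat.log 2 n + 1) ^ c) (h1 : ∀ n β, ∃ o, R n β o)
    (h2 : ∀ n, 2 ≤ n → ∀ o, ∃ β, ¬ R n β o) :
    ACC0 = TC0 ↔ ∃ m, 2 ≤ m ∧ Answers (fun _ c => c % m ≠ 0) k q R := by
  rw [acc0_eq_iff]
  constructor
  · rintro ⟨m, hm, h⟩
    exact ⟨m, hm, (tc0_sub_iff_answers _ hk hq h1 h2).1 ((tc0_sub_iff _).2 h)⟩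
  · rintro ⟨m, hm, h⟩
    exact ⟨m, hm, (tc0_sub_iff _).1 ((tc0_sub_iff_answers _ hk hq h1 h2).2 h)⟩

theorem acc0_eq_iff_often (hk : ∀ n, k n ≤ c * (Nat.log 2 n + 1))
    (hq : ∀ n, q n ≤ c * (Nat.log 2 n + 1) ^ c) (h1 : ∀ n β, ∃ o, R n β o)
    (h2 : ∀ n, 2 ≤ n → Oblivious (k n) (q n) (R n) (ρ' n))
    (h3 : ∀ n, 2 ≤ n → ρ' n + 1 / ((c : ℝ) * ((Nat.log 2 n : ℝ) + 1) ^ c) ≤ ρ n)
    (h4 : ∀ n, ρ n ≤ 1) :
    ACC0 = TC0 ↔ ∃ m, 2 ≤ m ∧ AnswersOften (fun _ c => c % m ≠ 0) k q R ρ := by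
  rw [acc0_eq_iff]
  constructor
  · rintro ⟨m, hm, h⟩
    exact ⟨m, hm, (tc0_sub_iff_often _ hk hq h1 h2 h3 h4).1 ((tc0_sub_iff _).2 h)⟩
  · rintro ⟨m, hm, h⟩
    exact ⟨m, hm, (tc0_sub_iff _).1 ((tc0_sub_iff_often _ hk hq h1 h2 h3 h4).2 h)⟩

end

end Pool.Agent.TH707.IQ
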